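import Mathlib

set_option autoImplicit false
open MeasureTheory
open scoped BigOperators

namespace Pool.Agent.helper50.SG

theorem sum_sum_det {n : ℕ} (A : Matrix (Fin n) (Fin n) ℂ) :
    ∑ σ : Equiv.Perm (Fin n), ∑ τ : Equiv.Perm (Fin n),
      ((Equiv.Perm.sign σ : ℤ) : ℂ) * ((Equiv.Perm.sign τ : ℤ) : ℂ) * ∏ k, A (σ k) (τ k) =
      (n.factorial : ℂ) * A.det := by
  rw [Finset.sum_comm]
  have h : ∀ τ : Equiv.Perm (Fin n), ∑ σ : Equiv.Perm (Fin n),
      ((Equiv.Perm.sign σ : ℤ) : ℂ) * ((Equiv.Perm.sign τ : ℤ) : ℂ) * ∏ k, A (σ k) (τ k) =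
      A.det := by
    intro τ
    have h1 := Matrix.det_permute' τ A
    rw [Matrix.det_apply'] at h1
    simp only [Matrix.submatrix_apply, id] at h1
    have h2 : ∀ σ : Equiv.Perm (Fin n), ((Equiv.Perm.sign σ : ℤ) : ℂ) *
        ((Equiv.Perm.sign τ : ℤ) : ℂ) * ∏ k, A (σ k) (τ k) =
        ((Equiv.Perm.sign τ : ℤ) : ℂ) * (((Equiv.Perm.sign σ : ℤ) : ℂ) *
          ∏ k, A (σ k) (τ k)) := fun σ => by ring
    rw [Finset.sum_congr rfl fun σ _ => h2 σ, ← Finset.mul_sum, h1, ← mul_assoc]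
    have h3 : ((Equiv.Perm.sign τ : ℤ) : ℂ) * ((Equiv.Perm.sign τ : ℤ) : ℂ) = 1 := by
      rcases Int.units_eq_one_or (Equiv.Perm.sign τ) with h | h <;> simp [h]
    rw [h3, one_mul]
  rw [Finset.sum_congr rfl fun τ _ => h τ]
  simp [Fintype.card_perm]

variable {α : Type*} [MeasurableSpace α] (μ : Measure α) [SigmaFinite μ]

theorem det_mul_det {n : ℕ} (f g : Fin n → α → ℂ) (v : Fin n → α) :
    (Matrix.of fun i k => f i (v k)).det * (Matrix.of fun i k => g i (v k)).det =
      ∑ σ : Equiv.Perm (Fin n), ∑ τ : Equiv.Perm (Fin n),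
        ((Equiv.Perm.sign σ : ℤ) : ℂ) * ((Equiv.Perm.sign τ : ℤ) : ℂ) *
          ∏ k, (f (σ k) (v k) * g (τ k) (v k)) := by
  rw [Matrix.det_apply', Matrix.det_apply', Finset.sum_mul_sum]
  refine Finset.sum_congr rfl fun σ _ => Finset.sum_congr rfl fun τ _ => ?_
  rw [Finset.prod_mul_distrib]
  simp only [Matrix.of_apply]
  ring

/-- Andréief's identity -/
theorem andreief {n : ℕ} (f g : Fin n → α → ℂ)
    (hint : ∀ i j, Integrable (fun a => f i a * g j a) μ) :
    Integrable (fun v : Fin n → α => (Matrix.of fun i k => f i (v k)).det *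
      (Matrix.of fun i k => g i (v k)).det) (Measure.pi fun _ => μ) ∧
    ∫ v, (Matrix.of fun i k => f i (v k)).det * (Matrix.of fun i k => g i (v k)).det
      ∂(Measure.pi fun _ : Fin n => μ) =
      (n.factorial : ℂ) * (Matrix.of fun i j => ∫ a, f i a * g j a ∂μ).det := by
  have hterm : ∀ σ τ : Equiv.Perm (Fin n), Integrable (fun v : Fin n → α =>
      ((Equiv.Perm.sign σ : ℤ) : ℂ) * ((Equiv.Perm.sign τ : ℤ) : ℂ) *
          ∏ k, (f (σ k) (v k) * g (τ k) (v k))) (Measure.pi fun _ => μ) := by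
    intro σ τ
    exact (Integrable.fintype_prod (f := fun k a => f (σ k) a * g (τ k) a)
      fun k => hint _ _).const_mul _
  constructor
  · simp_rw [det_mul_det]
    exact integrable_finset_sum _ fun σ _ => integrable_finset_sum _ fun τ _ => hterm σ τ
  · simp_rw [det_mul_det]
    rw [integral_finset_sum _ fun σ _ => integrable_finset_sum _ fun τ _ => hterm σ τ]
    rw [← sum_sum_det]
    refine Finset.sum_congr rfl fun σ _ => ?_
    rw [integral_finset_sum _ fun τ _ => hterm σ τ]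
    refine Finset.sum_congr rfl fun τ _ => ?_
    rw [integral_const_mul]
    congr 1
    exact integral_fintype_prod_eq_prod (fun k a => f (σ k) a * g (τ k) a)

end Pool.Agent.helper50.SG
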