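import Mathlib
import Pool.Agent.helper84.SG.Defs

set_option autoImplicit false
open MeasureTheory ProbabilityTheory
open scoped BigOperators NNReal ENNReal ComplexConjugate

namespace Pool.Agent.helper50.SG
open Pool.Agent.helper84.SG

theorem gpdf (x : ℝ) : gaussianPDF 0 (1 / 2) x =
    ENNReal.ofReal ((Real.sqrt Real.pi)⁻¹ * Real.exp (-x ^ 2)) := by
  unfold gaussianPDF gaussianPDFReal
  congr 2
  · congr 2
    push_cast
    ring
  · congr 1
    push_cast
    ring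

theorem cg_eq : cg = (volume : Measure ℂ).withDensity
    (fun z => ENNReal.ofReal (Real.pi⁻¹ * Real.exp (-‖z‖ ^ 2))) := by
  refine Measure.ext_of_lintegral _ fun f hf => ?_
  have hm : Measurable (fun z : ℂ => ENNReal.ofReal (Real.pi⁻¹ * Real.exp (-‖z‖ ^ 2))) := by
    fun_prop
  unfold cg
  have hfc : Measurable (fun p : ℝ × ℝ => f ((p.1 : ℂ) + (p.2 : ℂ) * Complex.I)) :=
    hf.comp measurable_toC
  rw [lintegral_map hf measurable_toC, gaussianReal_of_var_ne_zero _ (by norm_num),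
    prod_withDensity (measurable_gaussianPDF _ _) (measurable_gaussianPDF _ _),
    lintegral_withDensity_eq_lintegral_mul _ (by
      exact ((measurable_gaussianPDF _ _).comp measurable_fst).mul
        ((measurable_gaussianPDF _ _).comp measurable_snd)) hfc,
    lintegral_withDensity_eq_lintegral_mul _ hm hf,
    ← (Complex.volume_preserving_equiv_real_prod.symm).lintegral_comp_emb
      (MeasurableEquiv.measurableEmbedding _)]
  rw [← Measure.volume_eq_prod]
  refine lintegral_congr fun p => ?_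
  simp only [Pi.mul_apply, Complex.measurableEquivRealProd_symm_apply, gpdf]
  have e1 : (p.1 : ℂ) + (p.2 : ℂ) * Complex.I = ⟨p.1, p.2⟩ := by
    apply Complex.ext <;> simp
  rw [e1]
  congr 1
  rw [← ENNReal.ofReal_mul (by positivity)]
  congr 1
  have e2 : ‖(⟨p.1, p.2⟩ : ℂ)‖ ^ 2 = p.1 ^ 2 + p.2 ^ 2 := by
    rw [Complex.sq_norm, Complex.normSq_mk]; ring
  rw [e2]
  have e3 : -(p.1 ^ 2 + p.2 ^ 2) = -p.1 ^ 2 + -p.2 ^ 2 := by ring
  rw [e3, Real.exp_add]
  have e4 : Real.pi⁻¹ = (Real.sqrt Real.pi)⁻¹ * (Real.sqrt Real.pi)⁻¹ := by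
    rw [← mul_inv, Real.mul_self_sqrt Real.pi_pos.le]
  rw [e4]
  ring

/-- the linear map `v ↦ (b α - a β, b α' - a β')` -/
noncomputable def TT (e e' : ℂ × ℂ) : (ℂ × ℂ) →ₗ[ℂ] (ℂ × ℂ) where
  toFun v := (v.2 * e.1 - v.1 * e.2, v.2 * e'.1 - v.1 * e'.2)
  map_add' v w := by
    ext <;> simp <;> ring
  map_smul' c v := by
    ext <;> simp <;> ring

theorem TT_apply (e e' v : ℂ × ℂ) :
    TT e e' v = (v.2 * e.1 - v.1 * e.2, v.2 * e'.1 - v.1 * e'.2) := rfl

theorem det_TT (e e' : ℂ × ℂ) : (TT e e').det = e.1 * e'.2 - e.2 * e'.1 := by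
  rw [← LinearMap.det_toMatrix (Module.Basis.finTwoProd ℂ), Matrix.det_fin_two]
  simp [LinearMap.toMatrix_apply, TT_apply]
  ring

theorem normSq_delta (e e' : ℂ × ℂ) :
    ‖e.1 * e'.2 - e.2 * e'.1‖ ^ 2 = (‖e.1‖ ^ 2 + ‖e.2‖ ^ 2) * (‖e'.1‖ ^ 2 + ‖e'.2‖ ^ 2) -
      ‖e.1 * conj e'.1 + e.2 * conj e'.2‖ ^ 2 := by
  simp only [Complex.sq_norm, Complex.normSq_apply]
  simp
  ring

theorem quad_id (e e' v : ℂ × ℂ) (r : ℝ) (he : Unit2 e) (he' : Unit2 e')
    (hr : e.1 * conj e'.1 + e.2 * conj e'.2 = (r : ℂ)) :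
    (1 - r ^ 2) * (‖v.1‖ ^ 2 + ‖v.2‖ ^ 2) =
      ‖(TT e e' v).1‖ ^ 2 + ‖(TT e e' v).2‖ ^ 2 -
        2 * r * ((TT e e' v).1 * conj (TT e e' v).2).re := by
  have h1 : ‖e.1 * e'.2 - e.2 * e'.1‖ ^ 2 * (‖v.1‖ ^ 2 + ‖v.2‖ ^ 2) =
      ‖(TT e e' v).1‖ ^ 2 * (‖e'.1‖ ^ 2 + ‖e'.2‖ ^ 2) +
        ‖(TT e e' v).2‖ ^ 2 * (‖e.1‖ ^ 2 + ‖e.2‖ ^ 2) -
        2 * ((e.1 * conj e'.1 + e.2 * conj e'.2) *
          (conj (TT e e' v).1 * (TT e e' v).2)).re := by
    simp only [Complex.sq_norm, Complex.normSq_apply, TT_apply]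
    simp
    ring
  have h2 := normSq_delta e e'
  unfold Unit2 at he he'
  rw [he, he', hr] at h2
  rw [h2, he, he', hr] at h1
  have h3 : ‖(r : ℂ)‖ ^ 2 = r ^ 2 := by simp
  rw [h3] at h1
  have h4 : ((r : ℂ) * (conj (TT e e' v).1 * (TT e e' v).2)).re =
      r * ((TT e e' v).1 * conj (TT e e' v).2).re := by
    simp
  rw [h4] at h1
  linarith

/-- the density of a pair of correlated complex Gaussians -/
noncomputable def dens (r : ℝ) (z : ℂ × ℂ) : ℝ :=
  (Real.pi ^ 2 * (1 - r ^ 2))⁻¹ *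
    Real.exp (-((‖z.1‖ ^ 2 + ‖z.2‖ ^ 2 - 2 * r * (z.1 * conj z.2).re) / (1 - r ^ 2)))

theorem measurable_dens (r : ℝ) : Measurable (dens r) := by
  have : Continuous (dens r) := by
    unfold dens
    fun_prop
  exact this.measurable

theorem dens_nonneg (r : ℝ) (hr : r ^ 2 < 1) (z : ℂ × ℂ) : 0 ≤ dens r z := by
  unfold dens
  have : 0 < 1 - r ^ 2 := by linarith
  positivity

theorem measurable_TT (e e' : ℂ × ℂ) : Measurable (TT e e') := by
  have : Continuous (TT e e') := by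
    have : (TT e e' : ℂ × ℂ → ℂ × ℂ) =
      fun v => (v.2 * e.1 - v.1 * e.2, v.2 * e'.1 - v.1 * e'.2) := rfl
    rw [this]
    fun_prop
  exact this.measurable

theorem law_TT (e e' : ℂ × ℂ) (r : ℝ) (he : Unit2 e) (he' : Unit2 e')
    (hr : e.1 * conj e'.1 + e.2 * conj e'.2 = (r : ℂ)) (hr1 : r ^ 2 < 1) :
    (cg.prod cg).map (TT e e') =
      (volume : Measure (ℂ × ℂ)).withDensity (fun z => ENNReal.ofReal (dens r z)) := by
  have hk : 0 < 1 - r ^ 2 := by linarith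
  have hT := measurable_TT e e'
  have hdet : LinearMap.det ((TT e e').restrictScalars ℝ) = 1 - r ^ 2 := by
    rw [LinearMap.det_restrictScalars, det_TT, Algebra.norm_complex_apply, ← Complex.sq_norm,
      normSq_delta, hr]
    unfold Unit2 at he he'
    rw [he, he']
    simp
  refine Measure.ext_of_lintegral _ fun f hf => ?_
  have hm : Measurable (fun z : ℂ => ENNReal.ofReal (Real.pi⁻¹ * Real.exp (-‖z‖ ^ 2))) := by
    fun_prop
  have hd : Measurable (fun z : ℂ × ℂ => ENNReal.ofReal (dens r z)) :=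
    (measurable_dens r).ennreal_ofReal
  have hfT : Measurable (fun v => f (TT e e' v)) := hf.comp hT
  rw [lintegral_map hf hT, cg_eq, prod_withDensity hm hm,
    lintegral_withDensity_eq_lintegral_mul _ (by
      exact (hm.comp measurable_fst).mul (hm.comp measurable_snd)) hfT,
    lintegral_withDensity_eq_lintegral_mul _ hd hf, ← Measure.volume_eq_prod]
  have : (volume : Measure (ℂ × ℂ)).IsAddHaarMeasure := by
    rw [Measure.volume_eq_prod]
    infer_instance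
  have hmap := Measure.map_linearMap_addHaar_eq_smul_addHaar (volume : Measure (ℂ × ℂ))
    (f := (TT e e').restrictScalars ℝ) (by rw [hdet]; exact hk.ne')
  rw [hdet] at hmap
  set G : ℂ × ℂ → ℝ≥0∞ := fun z => ENNReal.ofReal ((1 - r ^ 2) * dens r z) * f z with hG
  have hGm : Measurable G := by
    exact ((measurable_dens r).const_mul _).ennreal_ofReal.mul hf
  have h1 : ∫⁻ v, G ((TT e e').restrictScalars ℝ v) =
      ENNReal.ofReal |(1 - r ^ 2)⁻¹| * ∫⁻ z, G z := by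
    have h2 : ∫⁻ v, G ((TT e e').restrictScalars ℝ v) =
        ∫⁻ z, G z ∂(Measure.map ((TT e e').restrictScalars ℝ) volume) :=
      (lintegral_map hGm hT).symm
    rw [h2, hmap, lintegral_smul_measure]
    rfl
  have h3 : ∀ v : ℂ × ℂ, G ((TT e e').restrictScalars ℝ v) =
      ((fun z : ℂ × ℂ => ENNReal.ofReal (Real.pi⁻¹ * Real.exp (-‖z.1‖ ^ 2)) *
        ENNReal.ofReal (Real.pi⁻¹ * Real.exp (-‖z.2‖ ^ 2))) * (fun v => f (TT e e' v))) v := by
    intro v
    simp only [hG, Pi.mul_apply, LinearMap.coe_restrictScalars]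
    congr 1
    rw [← ENNReal.ofReal_mul (by positivity)]
    congr 1
    unfold dens
    rw [← quad_id e e' v r he he' hr]
    have : -((1 - r ^ 2) * (‖v.1‖ ^ 2 + ‖v.2‖ ^ 2) / (1 - r ^ 2)) = -‖v.1‖ ^ 2 + -‖v.2‖ ^ 2 := by
      field_simp
      ring
    rw [this, Real.exp_add]
    field_simp
  rw [← lintegral_congr h3, h1, ← lintegral_const_mul _ hGm]
  refine lintegral_congr fun z => ?_
  simp only [hG, Pi.mul_apply]
  rw [← mul_assoc, ← ENNReal.ofReal_mul (by positivity)]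
  congr 2
  rw [abs_of_pos (by positivity)]
  field_simp

end Pool.Agent.helper50.SG
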