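import Mathlib

set_option autoImplicit false
open MeasureTheory
open scoped BigOperators NNReal ENNReal ComplexConjugate

namespace Pool.Agent.helper50.SG

theorem radial_integral (s b : ℝ) (hs : 0 ≤ s) (hb : 0 < b) :
    ∫ x : ℂ, ‖x‖ ^ s * Real.exp (-b * ‖x‖ ^ 2) =
      Real.pi * b ^ (-(s + 2) / 2) * Real.Gamma ((s + 2) / 2) := by
  have h := Complex.integral_rpow_mul_exp_neg_mul_rpow (p := 2) (q := s) (b := b)
    (by norm_num) (by linarith) hb
  simp only [Real.rpow_two] at h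
  rw [h]
  ring

theorem radial_integrable (s b : ℝ) (hs : 0 ≤ s) (hb : 0 < b) :
    Integrable (fun x : ℂ => ‖x‖ ^ s * Real.exp (-b * ‖x‖ ^ 2)) := by
  have h := radial_integral s b hs hb
  by_contra hc
  rw [integral_undef hc] at h
  have h1 : 0 < Real.Gamma ((s + 2) / 2) := Real.Gamma_pos_of_pos (by linarith)
  have h2 : 0 < Real.pi * b ^ (-(s + 2) / 2) * Real.Gamma ((s + 2) / 2) := by
    have := Real.pi_pos
    positivity
  linarith

/-- the one variable integrand -/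
noncomputable def jf (h κ : ℝ) (a a' : ℕ) (x : ℂ) : ℂ :=
  x ^ a * conj x ^ a' * ((‖x‖ ^ (2 * h) * Real.exp (-(‖x‖ ^ 2 / κ)) : ℝ) : ℂ)

theorem norm_jf (h κ : ℝ) (hh : 0 ≤ h) (a a' : ℕ) (x : ℂ) :
    ‖jf h κ a a' x‖ = ‖x‖ ^ ((a : ℝ) + a' + 2 * h) * Real.exp (-(1 / κ) * ‖x‖ ^ 2) := by
  unfold jf
  rw [norm_mul, norm_mul, norm_pow, norm_pow, RCLike.norm_conj, Complex.norm_real,
    Real.norm_of_nonneg (by positivity)]
  rw [Real.rpow_add_of_nonneg (norm_nonneg _) (by positivity) (by positivity),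
    Real.rpow_add_of_nonneg (norm_nonneg _) (by positivity) (by positivity),
    Real.rpow_natCast, Real.rpow_natCast]
  have : -(‖x‖ ^ 2 / κ) = -(1 / κ) * ‖x‖ ^ 2 := by ring
  rw [this]
  ring

theorem measurable_jf (h κ : ℝ) (a a' : ℕ) : Measurable (jf h κ a a') := by
  unfold jf
  have : Measurable (fun x : ℂ => conj x) := Complex.continuous_conj.measurable
  fun_prop

theorem integrable_jf (h κ : ℝ) (hh : 0 ≤ h) (hκ : 0 < κ) (a a' : ℕ) :
    Integrable (jf h κ a a') := by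
  have h1 := radial_integrable ((a : ℝ) + a' + 2 * h) (1 / κ) (by positivity) (by positivity)
  refine ⟨(measurable_jf h κ a a').aestronglyMeasurable, ?_⟩
  refine (hasFiniteIntegral_congr' (g := fun x : ℂ => ‖x‖ ^ ((a : ℝ) + a' + 2 * h) *
    Real.exp (-(1 / κ) * ‖x‖ ^ 2)) ?_).2 h1.2
  refine Filter.Eventually.of_forall fun x => ?_
  rw [norm_jf h κ hh, Real.norm_of_nonneg (by positivity)]

theorem integral_jf_eq (h κ : ℝ) (hh : 0 ≤ h) (hκ : 0 < κ) (a : ℕ) :
    ∫ x, jf h κ a a x =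
      ((Real.pi * κ ^ ((a : ℝ) + h + 1) * Real.Gamma ((a : ℝ) + h + 1) : ℝ) : ℂ) := by
  have h1 := radial_integral ((a : ℝ) + a + 2 * h) (1 / κ) (by positivity) (by positivity)
  have h2 : ∀ x : ℂ, jf h κ a a x = ((‖x‖ ^ ((a : ℝ) + a + 2 * h) *
      Real.exp (-(1 / κ) * ‖x‖ ^ 2) : ℝ) : ℂ) := by
    intro x
    rw [← norm_jf h κ hh]
    have h3 : jf h κ a a x = ((‖x‖ ^ (2 * a) * (‖x‖ ^ (2 * h) * Real.exp (-(‖x‖ ^ 2 / κ))) : ℝ) : ℂ) := by
      unfold jf
      rw [← mul_pow, Complex.mul_conj, Complex.normSq_eq_norm_sq]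
      push_cast
      rw [← pow_mul]
    rw [h3, Complex.norm_real, Real.norm_of_nonneg (by positivity)]
  simp_rw [h2]
  rw [integral_complex_ofReal]
  congr 1
  rw [h1]
  have h4 : ((a : ℝ) + a + 2 * h + 2) / 2 = (a : ℝ) + h + 1 := by ring
  have h5 : -((a : ℝ) + a + 2 * h + 2) / 2 = -((a : ℝ) + h + 1) := by ring
  rw [h4, h5, one_div, Real.inv_rpow hκ.le, ← Real.rpow_neg hκ.le, neg_neg]

theorem integral_jf_ne (h κ : ℝ) (a a' : ℕ) (hne : a ≠ a') :
    ∫ x, jf h κ a a' x = 0 := by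
  set θ : ℝ := Real.pi / ((a : ℝ) - a') with hθ
  have hd : (a : ℝ) - a' ≠ 0 := sub_ne_zero.2 (by exact_mod_cast hne)
  set ω : Circle := Circle.exp θ with hω
  have hmp : MeasurePreserving (rotation ω) (volume : Measure ℂ) volume :=
    (rotation ω).measurePreserving
  have hme : MeasurableEmbedding (rotation ω) :=
    (rotation ω).toHomeomorph.measurableEmbedding
  have h1 := hmp.integral_comp hme (jf h κ a a')
  have h2 : (ω : ℂ) ^ a * conj (ω : ℂ) ^ a' = -1 := by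
    rw [hω, Circle.coe_exp, ← Complex.exp_conj]
    simp only [map_mul, Complex.conj_ofReal, Complex.conj_I]
    rw [← Complex.exp_nat_mul, ← Complex.exp_nat_mul, ← Complex.exp_add]
    have : (a : ℂ) * (θ * Complex.I) + a' * (θ * -Complex.I) = Real.pi * Complex.I := by
      have h3 : ((a : ℂ) - a') * (θ : ℂ) = (Real.pi : ℂ) := by
        rw [hθ]
        push_cast
        have : (a : ℂ) - a' ≠ 0 := by exact_mod_cast hd
        field_simp
      rw [← h3]
      ring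
    rw [this, Complex.exp_pi_mul_I]
  have h3 : ∀ x : ℂ, jf h κ a a' (rotation ω x) = -jf h κ a a' x := by
    intro x
    unfold jf
    rw [rotation_apply, norm_mul, Circle.norm_coe, one_mul, mul_pow, map_mul, mul_pow]
    have : (ω : ℂ) ^ a * x ^ a * (conj (ω : ℂ) ^ a' * conj x ^ a') =
      ((ω : ℂ) ^ a * conj (ω : ℂ) ^ a') * (x ^ a * conj x ^ a') := by ring
    rw [this, h2]
    ring
  simp_rw [h3] at h1
  rw [integral_neg] at h1
  have h4 : (2 : ℂ) * ∫ x, jf h κ a a' x = 0 := by linear_combination (-1 : ℂ) * h1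
  simpa using h4

/-- the weight of a pair of exponents -/
noncomputable def Gt (h κ : ℝ) (a : ℕ) : ℝ :=
  Real.pi * κ ^ ((a : ℝ) + h + 1) * Real.Gamma ((a : ℝ) + h + 1)

theorem integral_jf (h κ : ℝ) (hh : 0 ≤ h) (hκ : 0 < κ) (a a' : ℕ) :
    ∫ x, jf h κ a a' x = if a = a' then ((Gt h κ a : ℝ) : ℂ) else 0 := by
  split_ifs with hc
  · rw [← hc]; exact integral_jf_eq h κ hh hκ a
  · exact integral_jf_ne h κ a a' hc

end Pool.Agent.helper50.SG
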