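import Mathlib
import Pool.Agent.helper50.SG.Radial

set_option autoImplicit false
open MeasureTheory
open scoped BigOperators NNReal ENNReal ComplexConjugate

namespace Pool.Agent.helper50.SG

/-- the terms of the double expansion -/
noncomputable def tm (h κ r : ℝ) (A A' B B' : ℕ) (pq : ℕ × ℕ) (z : ℂ × ℂ) : ℂ :=
  (jf h κ (A + pq.1) (A' + pq.2) z.1 * jf h κ (B + pq.2) (B' + pq.1) z.2) *
    (((r / κ) ^ (pq.1 + pq.2) / (pq.1.factorial * pq.2.factorial) : ℝ) : ℂ)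

/-- the full two variable integrand -/
noncomputable def KK (h κ r : ℝ) (A A' B B' : ℕ) (z : ℂ × ℂ) : ℂ :=
  jf h κ A A' z.1 * jf h κ B B' z.2 *
    Complex.exp (((2 * r * (z.1 * conj z.2).re / κ : ℝ)) : ℂ)

theorem tm_eq (h κ r : ℝ) (A A' B B' : ℕ) (pq : ℕ × ℕ) (z : ℂ × ℂ) :
    tm h κ r A A' B B' pq z = jf h κ A A' z.1 * jf h κ B B' z.2 *
      (((r / κ : ℝ) * (z.1 * conj z.2)) ^ pq.1 / (pq.1.factorial : ℂ) *
        (((r / κ : ℝ) * (conj z.1 * z.2)) ^ pq.2 / (pq.2.factorial : ℂ))) := by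
  unfold tm jf
  push_cast
  have h1 : (pq.1.factorial : ℂ) ≠ 0 := by exact_mod_cast pq.1.factorial_ne_zero
  have h2 : (pq.2.factorial : ℂ) ≠ 0 := by exact_mod_cast pq.2.factorial_ne_zero
  rw [div_mul_div_comm, mul_div_assoc', mul_div_assoc']
  congr 1
  ring

theorem hs1 (u : ℂ) : HasSum (fun n : ℕ => u ^ n / (n.factorial : ℂ)) (Complex.exp u) := by
  have hu := NormedSpace.expSeries_div_hasSum_exp u
  rw [← Complex.exp_eq_exp_ℂ] at hu
  exact hu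

theorem sn1 (u : ℂ) : Summable (fun n : ℕ => ‖u ^ n / (n.factorial : ℂ)‖) :=
  NormedSpace.norm_expSeries_div_summable u

theorem sm1 (u w : ℂ) : Summable (fun pq : ℕ × ℕ => u ^ pq.1 / (pq.1.factorial : ℂ) *
    (w ^ pq.2 / (pq.2.factorial : ℂ))) :=
  summable_mul_of_summable_norm (f := fun n : ℕ => u ^ n / (n.factorial : ℂ))
    (g := fun n : ℕ => w ^ n / (n.factorial : ℂ)) (sn1 u) (sn1 w)

theorem exp_hasSum (u w : ℂ) :
    HasSum (fun pq : ℕ × ℕ => u ^ pq.1 / (pq.1.factorial : ℂ) * (w ^ pq.2 / (pq.2.factorial : ℂ)))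
      (Complex.exp u * Complex.exp w) :=
  HasSum.mul (f := fun n : ℕ => u ^ n / (n.factorial : ℂ))
    (g := fun n : ℕ => w ^ n / (n.factorial : ℂ)) (hs1 u) (hs1 w) (sm1 u w)

theorem hasSum_tm (h κ r : ℝ) (A A' B B' : ℕ) (z : ℂ × ℂ) :
    HasSum (fun pq => tm h κ r A A' B B' pq z) (KK h κ r A A' B B' z) := by
  have h1 := (exp_hasSum ((r / κ : ℝ) * (z.1 * conj z.2)) ((r / κ : ℝ) * (conj z.1 * z.2))).mul_left
    (jf h κ A A' z.1 * jf h κ B B' z.2)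
  simp_rw [← tm_eq] at h1
  have h2 : KK h κ r A A' B B' z = jf h κ A A' z.1 * jf h κ B B' z.2 *
      (Complex.exp ((r / κ : ℝ) * (z.1 * conj z.2)) *
        Complex.exp ((r / κ : ℝ) * (conj z.1 * z.2))) := by
    unfold KK
    rw [← Complex.exp_add]
    congr 2
    have : conj z.1 * z.2 = conj (z.1 * conj z.2) := by simp
    rw [this, ← mul_add, Complex.add_conj]
    push_cast
    ring
  rw [h2]
  exact h1

theorem norm_tm (h κ r : ℝ) (hκ : 0 < κ) (hr : 0 ≤ r) (A A' B B' : ℕ) (pq : ℕ × ℕ)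
    (z : ℂ × ℂ) :
    ‖tm h κ r A A' B B' pq z‖ = ‖jf h κ A A' z.1‖ * ‖jf h κ B B' z.2‖ *
      (((r / κ) * (‖z.1‖ * ‖z.2‖)) ^ pq.1 / (pq.1.factorial : ℝ) *
        (((r / κ) * (‖z.1‖ * ‖z.2‖)) ^ pq.2 / (pq.2.factorial : ℝ))) := by
  rw [tm_eq]
  have h1 : ‖((r / κ : ℝ) : ℂ)‖ = r / κ := by
    rw [Complex.norm_real, Real.norm_of_nonneg (by positivity)]
  simp only [norm_mul, norm_div, norm_pow, h1, RCLike.norm_conj, Complex.norm_natCast]

theorem hs2 (u : ℝ) : HasSum (fun n : ℕ => u ^ n / (n.factorial : ℝ)) (Real.exp u) := by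
  have hu := NormedSpace.expSeries_div_hasSum_exp u
  rw [← Real.exp_eq_exp_ℝ] at hu
  exact hu

theorem sn2 (u : ℝ) : Summable (fun n : ℕ => ‖u ^ n / (n.factorial : ℝ)‖) :=
  NormedSpace.norm_expSeries_div_summable u

theorem rexp_hasSum (t : ℝ) :
    HasSum (fun pq : ℕ × ℕ => t ^ pq.1 / (pq.1.factorial : ℝ) * (t ^ pq.2 / (pq.2.factorial : ℝ)))
      (Real.exp t * Real.exp t) :=
  HasSum.mul (f := fun n : ℕ => t ^ n / (n.factorial : ℝ))
    (g := fun n : ℕ => t ^ n / (n.factorial : ℝ)) (hs2 t) (hs2 t)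
    (summable_mul_of_summable_norm (f := fun n : ℕ => t ^ n / (n.factorial : ℝ))
      (g := fun n : ℕ => t ^ n / (n.factorial : ℝ)) (sn2 t) (sn2 t))

/-- the dominating function -/
noncomputable def bnd (h κ r : ℝ) (A A' B B' : ℕ) (z : ℂ × ℂ) : ℝ :=
  (‖z.1‖ ^ ((A : ℝ) + A' + 2 * h) * Real.exp (-((1 - r) / κ) * ‖z.1‖ ^ 2)) *
    (‖z.2‖ ^ ((B : ℝ) + B' + 2 * h) * Real.exp (-((1 - r) / κ) * ‖z.2‖ ^ 2))

theorem integrable_bnd (h κ r : ℝ) (hh : 0 ≤ h) (hκ : 0 < κ) (hr1 : r < 1) (A A' B B' : ℕ) :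
    Integrable (bnd h κ r A A' B B') := by
  have hb : 0 < (1 - r) / κ := div_pos (by linarith) hκ
  have h1 := radial_integrable ((A : ℝ) + A' + 2 * h) ((1 - r) / κ) (by positivity) hb
  have h2 := radial_integrable ((B : ℝ) + B' + 2 * h) ((1 - r) / κ) (by positivity) hb
  rw [Measure.volume_eq_prod]
  exact h1.mul_prod h2

theorem norm_hasSum (h κ r : ℝ) (hκ : 0 < κ) (hr : 0 ≤ r) (A A' B B' : ℕ) (z : ℂ × ℂ) :
    HasSum (fun pq => ‖tm h κ r A A' B B' pq z‖) (‖jf h κ A A' z.1‖ * ‖jf h κ B B' z.2‖ *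
      (Real.exp ((r / κ) * (‖z.1‖ * ‖z.2‖)) * Real.exp ((r / κ) * (‖z.1‖ * ‖z.2‖)))) := by
  simp_rw [norm_tm h κ r hκ hr]
  exact (rexp_hasSum _).mul_left _

theorem norm_le_bnd (h κ r : ℝ) (hh : 0 ≤ h) (hκ : 0 < κ) (hr : 0 ≤ r) (A A' B B' : ℕ)
    (z : ℂ × ℂ) :
    ‖jf h κ A A' z.1‖ * ‖jf h κ B B' z.2‖ *
      (Real.exp ((r / κ) * (‖z.1‖ * ‖z.2‖)) * Real.exp ((r / κ) * (‖z.1‖ * ‖z.2‖))) ≤
      bnd h κ r A A' B B' z := by
  rw [norm_jf h κ hh, norm_jf h κ hh, ← Real.exp_add]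
  unfold bnd
  have e1 : ∀ a b c d e : ℝ, a * b * (c * d) * e = (a * c) * (b * d * e) := by intros; ring
  have e2 : ∀ a b c d : ℝ, (a * b) * (c * d) = (a * c) * (b * d) := by intros; ring
  rw [e1, e2 (‖z.1‖ ^ ((A : ℝ) + A' + 2 * h)) (Real.exp (-((1 - r) / κ) * ‖z.1‖ ^ 2)),
    ← Real.exp_add, ← Real.exp_add, ← Real.exp_add]
  refine mul_le_mul_of_nonneg_left (Real.exp_le_exp.2 ?_) (by positivity)
  have h1 : 2 * (‖z.1‖ * ‖z.2‖) ≤ ‖z.1‖ ^ 2 + ‖z.2‖ ^ 2 := by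
    nlinarith [sq_nonneg (‖z.1‖ - ‖z.2‖)]
  have h2 : 0 ≤ r / κ := by positivity
  have h3 := mul_le_mul_of_nonneg_left h1 h2
  have h4 : -(1 / κ) * ‖z.1‖ ^ 2 + -(1 / κ) * ‖z.2‖ ^ 2 + r / κ * (‖z.1‖ ^ 2 + ‖z.2‖ ^ 2) =
      -((1 - r) / κ) * ‖z.1‖ ^ 2 + -((1 - r) / κ) * ‖z.2‖ ^ 2 := by ring
  rw [← h4]
  linarith

theorem measurable_tm (h κ r : ℝ) (A A' B B' : ℕ) (pq : ℕ × ℕ) :
    Measurable (tm h κ r A A' B B' pq) := by
  unfold tm
  exact (((measurable_jf h κ _ _).comp measurable_fst).mul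
    ((measurable_jf h κ _ _).comp measurable_snd)).mul_const _

theorem measurable_KK (h κ r : ℝ) (A A' B B' : ℕ) :
    Measurable (KK h κ r A A' B B') := by
  unfold KK
  have h1 : Measurable (fun z : ℂ × ℂ => Complex.exp (((2 * r * (z.1 * conj z.2).re / κ : ℝ)) : ℂ)) := by
    have : Continuous (fun z : ℂ × ℂ =>
      Complex.exp (((2 * r * (z.1 * conj z.2).re / κ : ℝ)) : ℂ)) := by fun_prop
    exact this.measurable
  exact (((measurable_jf h κ _ _).comp measurable_fst).mul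
    ((measurable_jf h κ _ _).comp measurable_snd)).mul h1

theorem norm_KK_le (h κ r : ℝ) (hh : 0 ≤ h) (hκ : 0 < κ) (hr : 0 ≤ r) (A A' B B' : ℕ)
    (z : ℂ × ℂ) : ‖KK h κ r A A' B B' z‖ ≤ bnd h κ r A A' B B' z := by
  have h1 := norm_hasSum h κ r hκ hr A A' B B' z
  rw [← (hasSum_tm h κ r A A' B B' z).tsum_eq]
  refine (norm_tsum_le_tsum_norm h1.summable).trans ?_
  rw [h1.tsum_eq]
  exact norm_le_bnd h κ r hh hκ hr A A' B B' z

theorem integrable_KK (h κ r : ℝ) (hh : 0 ≤ h) (hκ : 0 < κ) (hr : 0 ≤ r) (hr1 : r < 1)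
    (A A' B B' : ℕ) : Integrable (KK h κ r A A' B B') := by
  refine (integrable_bnd h κ r hh hκ hr1 A A' B B').mono'
    (measurable_KK h κ r A A' B B').aestronglyMeasurable ?_
  exact Filter.Eventually.of_forall fun z => norm_KK_le h κ r hh hκ hr A A' B B' z

theorem integral_tm (h κ r : ℝ) (hh : 0 ≤ h) (hκ : 0 < κ) (A A' B B' : ℕ) (pq : ℕ × ℕ) :
    ∫ z, tm h κ r A A' B B' pq z =
      (((if A + pq.1 = A' + pq.2 then Gt h κ (A + pq.1) else 0) *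
        (if B + pq.2 = B' + pq.1 then Gt h κ (B + pq.2) else 0) *
        ((r / κ) ^ (pq.1 + pq.2) / (pq.1.factorial * pq.2.factorial)) : ℝ) : ℂ) := by
  unfold tm
  rw [integral_mul_const]
  rw [Measure.volume_eq_prod, integral_prod_mul (jf h κ (A + pq.1) (A' + pq.2))
    (jf h κ (B + pq.2) (B' + pq.1)), integral_jf h κ hh hκ, integral_jf h κ hh hκ]
  rw [Complex.ofReal_mul, Complex.ofReal_mul]
  congr 2
  · split_ifs <;> simp
  · split_ifs <;> simp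

theorem integral_KK (h κ r : ℝ) (hh : 0 ≤ h) (hκ : 0 < κ) (hr : 0 ≤ r) (hr1 : r < 1)
    (A A' B B' : ℕ) :
    ∫ z, KK h κ r A A' B B' z =
      ((∑' pq : ℕ × ℕ, ((if A + pq.1 = A' + pq.2 then Gt h κ (A + pq.1) else 0) *
        (if B + pq.2 = B' + pq.1 then Gt h κ (B + pq.2) else 0) *
        ((r / κ) ^ (pq.1 + pq.2) / (pq.1.factorial * pq.2.factorial))) : ℝ) : ℂ) := by
  have h1 : ∀ z, KK h κ r A A' B B' z = ∑' pq, tm h κ r A A' B B' pq z :=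
    fun z => (hasSum_tm h κ r A A' B B' z).tsum_eq.symm
  simp_rw [h1]
  rw [integral_tsum (fun pq => (measurable_tm h κ r A A' B B' pq).aestronglyMeasurable)]
  · simp_rw [integral_tm h κ r hh hκ]
    rw [Complex.ofReal_tsum]
  · rw [← lintegral_tsum fun pq => (measurable_tm h κ r A A' B B' pq).enorm.aemeasurable]
    have h2 : ∀ z, ∑' pq, ‖tm h κ r A A' B B' pq z‖ₑ ≤
        ENNReal.ofReal (bnd h κ r A A' B B' z) := by
      intro z
      have h3 := norm_hasSum h κ r hκ hr A A' B B' z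
      simp_rw [← ofReal_norm]
      rw [← ENNReal.ofReal_tsum_of_nonneg (fun pq => norm_nonneg _) h3.summable, h3.tsum_eq]
      exact ENNReal.ofReal_le_ofReal (norm_le_bnd h κ r hh hκ hr A A' B B' z)
    have h4 := (integrable_bnd h κ r hh hκ hr1 A A' B B').lintegral_lt_top
    exact ((lintegral_mono h2).trans_lt h4).ne

end Pool.Agent.helper50.SG
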