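import Mathlib
import Pool.Agent.helper84.SG.Defs2
import Pool.Agent.helper50.SG.Series

set_option autoImplicit false
open MeasureTheory
open scoped BigOperators NNReal ENNReal ComplexConjugate

namespace Pool.Agent.helper50.SG
open Pool.Agent.helper84.SG

theorem gamma_cc (a : ℝ) (ha : 0 < a) (p : ℕ) :
    Real.Gamma (a + p) = Real.Gamma a * cc (-a) p * p.factorial := by
  induction p with
  | zero => simp [cc]
  | succ p ih =>
    have h1 : Real.Gamma (a + (p + 1 : ℕ)) = (a + p) * Real.Gamma (a + p) := by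
      have : a + ((p + 1 : ℕ) : ℝ) = (a + p) + 1 := by push_cast; ring
      rw [this, Real.Gamma_add_one (by positivity)]
    rw [h1, ih]
    unfold cc
    rw [Finset.prod_range_succ, Nat.factorial_succ]
    push_cast
    have : (p : ℝ) + 1 ≠ 0 := by positivity
    field_simp
    ring

theorem entry (n : ℕ) (i j : Fin n) (h κ r : ℝ) (hh : 0 ≤ h) (hκ : 0 < κ) (hr : 0 ≤ r)
    (hr1 : r < 1) :
    ∫ z, KK h κ r (n - 1 - i) (n - 1 - j) i j z =
      ((Real.pi ^ 2 * κ ^ ((n : ℝ) + 1 + 2 * h) * Real.Gamma ((n : ℝ) - i + h) *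
        Real.Gamma ((i : ℝ) + h + 1) * Nmat n h r i j : ℝ) : ℂ) := by
  rw [integral_KK h κ r hh hκ hr hr1]
  congr 1
  unfold Nmat
  rw [← tsum_mul_left]
  have hi := i.2
  have hj := j.2
  have hni : (0 : ℝ) < (n : ℝ) - i := by
    have : ((i : ℕ) : ℝ) < n := by exact_mod_cast hi
    linarith
  have key : ∀ k : ℕ, (i : ℕ) ≤ k → (j : ℕ) ≤ k →
      ((if n - 1 - (i : ℕ) + (k - j) = n - 1 - (j : ℕ) + (k - i) then
          Gt h κ (n - 1 - (i : ℕ) + (k - j)) else 0) *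
        (if (i : ℕ) + (k - i) = (j : ℕ) + (k - j) then Gt h κ ((i : ℕ) + (k - i)) else 0) *
        ((r / κ) ^ ((k - j) + (k - i)) / ((k - j).factorial * (k - i).factorial) : ℝ)) =
      Real.pi ^ 2 * κ ^ ((n : ℝ) + 1 + 2 * h) * Real.Gamma ((n : ℝ) - i + h) *
        Real.Gamma ((i : ℝ) + h + 1) *
        (r ^ ((k - i) + (k - j)) * cc (-((n : ℝ) - i + h)) (k - j) *
          cc (-((i : ℝ) + h + 1)) (k - i)) := by
    intro k h1 h2
    rw [if_pos (by omega), if_pos (by omega)]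
    unfold Gt
    have e1 : ((n - 1 - (i : ℕ) + (k - j) : ℕ) : ℝ) + h + 1 = ((n : ℝ) - i + h) + ((k - j : ℕ) : ℝ) := by
      have : n - 1 - (i : ℕ) + (k - j) + 1 + i = n + (k - j) := by omega
      have h3 : ((n - 1 - (i : ℕ) + (k - j) : ℕ) : ℝ) + 1 + (i : ℕ) = n + ((k - j : ℕ) : ℝ) := by
        exact_mod_cast this
      linarith
    have e2 : ((i : ℕ) + (k - i) : ℕ) + h + 1 = ((i : ℝ) + h + 1) + ((k - i : ℕ) : ℝ) := by
      push_cast
      ring
    rw [e1, e2, gamma_cc _ (by linarith), gamma_cc _ (by positivity),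
      Real.rpow_add_natCast hκ.ne', Real.rpow_add_natCast hκ.ne']
    have e3 : κ ^ ((n : ℝ) + 1 + 2 * h) = κ ^ ((n : ℝ) - i + h) * κ ^ ((i : ℝ) + h + 1) := by
      rw [← Real.rpow_add hκ]
      congr 1
      ring
    rw [e3]
    have f1 : ((k - j).factorial : ℝ) ≠ 0 := by exact_mod_cast (k - j).factorial_ne_zero
    have f2 : ((k - i).factorial : ℝ) ≠ 0 := by exact_mod_cast (k - i).factorial_ne_zero
    have e4 : (r / κ) ^ ((k - j) + (k - i)) =
        r ^ ((k - i) + (k - j)) / (κ ^ (k - (j : ℕ)) * κ ^ (k - (i : ℕ))) := by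
      rw [div_pow, add_comm (k - (j : ℕ)), pow_add κ]
      ring
    rw [e4]
    have f3 : κ ^ (k - (j : ℕ)) ≠ 0 := by positivity
    have f4 : κ ^ (k - (i : ℕ)) ≠ 0 := by positivity
    field_simp
  set f : ℕ × ℕ → ℝ := fun pq => ((if n - 1 - (i : ℕ) + pq.1 = n - 1 - (j : ℕ) + pq.2 then
          Gt h κ (n - 1 - (i : ℕ) + pq.1) else 0) *
        (if (i : ℕ) + pq.2 = (j : ℕ) + pq.1 then Gt h κ ((i : ℕ) + pq.2) else 0) *
        ((r / κ) ^ (pq.1 + pq.2) / (pq.1.factorial * pq.2.factorial) : ℝ)) with hf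
  set g : ℕ → ℝ := fun k => Real.pi ^ 2 * κ ^ ((n : ℝ) + 1 + 2 * h) *
      Real.Gamma ((n : ℝ) - i + h) * Real.Gamma ((i : ℝ) + h + 1) *
      (if (i : ℕ) ≤ k ∧ (j : ℕ) ≤ k then
        r ^ ((k - i) + (k - j)) * cc (-((n : ℝ) - i + h)) (k - j) *
          cc (-((i : ℝ) + h + 1)) (k - i) else 0) with hg
  have hk : ∀ k : ℕ, (i : ℕ) ≤ k → (j : ℕ) ≤ k → f (k - j, k - i) = g k := by
    intro k h1 h2
    simp only [hf, hg]
    rw [if_pos (⟨h1, h2⟩ : (i : ℕ) ≤ k ∧ (j : ℕ) ≤ k)]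
    exact key k h1 h2
  have hgs : ∀ k ∈ Function.support g, (i : ℕ) ≤ k ∧ (j : ℕ) ≤ k := by
    intro k hk
    by_contra hc
    apply hk
    simp only [hg]
    rw [if_neg hc, mul_zero]
  refine tsum_eq_tsum_of_ne_zero_bij (f := f) (g := g)
    (fun k => ((k : ℕ) - j, (k : ℕ) - i)) ?_ ?_ ?_
  · intro k k' hkk
    have h1 := hgs k.1 k.2
    have h2 := hgs k'.1 k'.2
    simp only [Prod.mk.injEq] at hkk
    apply Subtype.ext
    omega
  · intro pq hpq
    have h1 : (i : ℕ) + pq.2 = (j : ℕ) + pq.1 := by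
      by_contra hc
      apply hpq
      simp only [hf]
      rw [if_neg hc, mul_zero, zero_mul]
    have h2 : f pq = g ((i : ℕ) + pq.2) := by
      rw [← hk ((i : ℕ) + pq.2) (by omega) (by omega)]
      congr 1
      ext
      · simp only; omega
      · simp only; omega
    refine ⟨⟨(i : ℕ) + pq.2, ?_⟩, ?_⟩
    · rw [Function.mem_support, ← h2]
      exact hpq
    · ext
      · simp only; omega
      · simp only; omega
  · intro k
    have h1 := hgs k.1 k.2
    exact hk k.1 h1.1 h1.2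

end Pool.Agent.helper50.SG
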