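import Mathlib
import Pool.Agent.helper84.SG.Defs2
import Pool.Agent.helper50.SG.Entry
import Pool.Agent.helper50.SG.Density
import Pool.Agent.helper50.SG.Andreief

set_option autoImplicit false
open MeasureTheory
open scoped BigOperators NNReal ENNReal ComplexConjugate

namespace Pool.Agent.helper50.SG
open Pool.Agent.helper84.SG

/-- the basis functions -/
noncomputable def ph (n : ℕ) (i : Fin n) (z : ℂ × ℂ) : ℂ := z.2 ^ (i : ℕ) * z.1 ^ (i.rev : ℕ)

/-- the weight -/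
noncomputable def wt (h : ℝ) (z : ℂ × ℂ) : ℝ := ‖z.1‖ ^ (2 * h) * ‖z.2‖ ^ (2 * h)

/-- the Gram integrand -/
noncomputable def Ff (n : ℕ) (h : ℝ) (i j : Fin n) (z : ℂ × ℂ) : ℂ :=
  ((wt h z : ℝ) : ℂ) * ph n i z * conj (ph n j z)

theorem measurable_ph (n : ℕ) (i : Fin n) : Measurable (ph n i) := by
  unfold ph
  fun_prop

theorem measurable_wt (h : ℝ) : Measurable (wt h) := by
  unfold wt
  fun_prop

theorem measurable_Ff (n : ℕ) (h : ℝ) (i j : Fin n) : Measurable (Ff n h i j) := by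
  unfold Ff
  exact ((Complex.measurable_ofReal.comp (measurable_wt h)).mul (measurable_ph n i)).mul
    (Complex.continuous_conj.measurable.comp (measurable_ph n j))

theorem Ff_dens (n : ℕ) (h r : ℝ) (i j : Fin n) (z : ℂ × ℂ) :
    (dens r z : ℂ) * Ff n h i j z = (((Real.pi ^ 2 * (1 - r ^ 2))⁻¹ : ℝ) : ℂ) *
      KK h (1 - r ^ 2) r (n - 1 - i) (n - 1 - j) i j z := by
  have e1 : (i.rev : ℕ) = n - 1 - i := by rw [Fin.val_rev]; omega
  have e2 : (j.rev : ℕ) = n - 1 - j := by rw [Fin.val_rev]; omega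
  unfold Ff KK jf ph wt dens
  rw [e1, e2]
  have e3 : Real.exp (-((‖z.1‖ ^ 2 + ‖z.2‖ ^ 2 - 2 * r * (z.1 * conj z.2).re) / (1 - r ^ 2))) =
      Real.exp (-(‖z.1‖ ^ 2 / (1 - r ^ 2))) * Real.exp (-(‖z.2‖ ^ 2 / (1 - r ^ 2))) *
        Real.exp (2 * r * (z.1 * conj z.2).re / (1 - r ^ 2)) := by
    rw [← Real.exp_add, ← Real.exp_add]
    congr 1
    ring
  rw [e3, ← Complex.ofReal_exp]
  simp only [Complex.ofReal_mul, map_mul, map_pow]
  ring

theorem integrable_Ff (n : ℕ) (h r : ℝ) (hh : 0 ≤ h) (hr : 0 ≤ r) (hr1 : r < 1)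
    (e e' : ℂ × ℂ) (he : Unit2 e) (he' : Unit2 e')
    (hc : e.1 * conj e'.1 + e.2 * conj e'.2 = (r : ℂ)) (i j : Fin n) :
    Integrable (fun v => Ff n h i j (TT e e' v)) (cg.prod cg) ∧
    ∫ v, Ff n h i j (TT e e' v) ∂(cg.prod cg) =
      (((1 - r ^ 2) ^ ((n : ℝ) + 2 * h) * Real.Gamma ((n : ℝ) - i + h) *
        Real.Gamma ((i : ℝ) + h + 1) * Nmat n h r i j : ℝ) : ℂ) := by
  have hr2 : r ^ 2 < 1 := by nlinarith
  have hκ : 0 < 1 - r ^ 2 := by linarith
  have hlaw := law_TT e e' r he he' hc hr2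
  have hT := measurable_TT e e'
  have hF := measurable_Ff n h i j
  have hdm : Measurable (fun z : ℂ × ℂ => ENNReal.ofReal (dens r z)) :=
    (measurable_dens r).ennreal_ofReal
  have hlt : ∀ᵐ z ∂(volume : Measure (ℂ × ℂ)), ENNReal.ofReal (dens r z) < ∞ :=
    Filter.Eventually.of_forall fun z => ENNReal.ofReal_lt_top
  have hpt : ∀ z : ℂ × ℂ, (ENNReal.ofReal (dens r z)).toReal • Ff n h i j z =
      (((Real.pi ^ 2 * (1 - r ^ 2))⁻¹ : ℝ) : ℂ) *
        KK h (1 - r ^ 2) r (n - 1 - i) (n - 1 - j) i j z := by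
    intro z
    rw [ENNReal.toReal_ofReal (dens_nonneg r hr2 z), ← Ff_dens]
    rfl
  have hI := integrable_KK h (1 - r ^ 2) r hh hκ hr hr1 (n - 1 - i) (n - 1 - j) i j
  constructor
  · have h1 : Integrable (Ff n h i j) ((cg.prod cg).map (TT e e')) := by
      rw [hlaw, integrable_withDensity_iff_integrable_smul' hdm hlt]
      simp_rw [hpt]
      exact hI.const_mul _
    exact (integrable_map_measure hF.aestronglyMeasurable hT.aemeasurable).1 h1
  · rw [← integral_map hT.aemeasurable hF.aestronglyMeasurable, hlaw,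
      integral_withDensity_eq_integral_toReal_smul hdm hlt]
    simp_rw [hpt]
    rw [integral_const_mul, entry n i j h (1 - r ^ 2) r hh hκ hr hr1, ← Complex.ofReal_mul]
    congr 1
    have e1 : (1 - r ^ 2) ^ ((n : ℝ) + 1 + 2 * h) =
        (1 - r ^ 2) ^ ((n : ℝ) + 2 * h) * (1 - r ^ 2) := by
      have : (n : ℝ) + 1 + 2 * h = ((n : ℝ) + 2 * h) + 1 := by ring
      rw [this, Real.rpow_add_one hκ.ne']
    rw [e1]
    have := Real.pi_pos
    field_simp

/-- number of pairs -/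
def npair (n : ℕ) : ℕ := ∑ i : Fin n, (Finset.Ioi i).card

theorem npair_eq (n : ℕ) : (npair n : ℝ) = (n : ℝ) * (n - 1) / 2 := by
  unfold npair
  simp_rw [Fin.card_Ioi]
  have h1 : ∑ i : Fin n, (n - 1 - (i : ℕ)) = ∑ i ∈ Finset.range n, (n - 1 - i) :=
    Fin.sum_univ_eq_sum_range (fun i => n - 1 - i) n
  rw [h1, Finset.sum_range_reflect (fun i => i) n]
  have h2 := Finset.sum_range_id_mul_two n
  have h3 : ((∑ i ∈ Finset.range n, i : ℕ) : ℝ) * 2 = (n : ℝ) * (n - 1) := by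
    rcases Nat.eq_zero_or_pos n with h | h
    · subst h; simp
    · have : ((n - 1 : ℕ) : ℝ) = (n : ℝ) - 1 := by
        rw [Nat.cast_sub h]; simp
      rw [← this]
      exact_mod_cast h2
  linarith

theorem norm_det_sq (n : ℕ) (e e' : ℂ × ℂ) (r : ℝ) (he : Unit2 e) (he' : Unit2 e')
    (hc : e.1 * conj e'.1 + e.2 * conj e'.2 = (r : ℂ)) (v : Fin n → ℂ × ℂ) :
    ‖(Matrix.of fun (i : Fin n) k => ph n i (TT e e' (v k))).det‖ ^ 2 =
      (1 - r ^ 2) ^ npair n * vand v := by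
  have h1 : (Matrix.of fun (i : Fin n) k => ph n i (TT e e' (v k))) =
      (Matrix.projVandermonde (fun k => (TT e e' (v k)).2) (fun k => (TT e e' (v k)).1)).transpose := by
    ext i k
    simp [ph, Matrix.projVandermonde_apply]
  rw [h1, Matrix.det_transpose, Matrix.det_projVandermonde, norm_prod, ← Finset.prod_pow]
  unfold vand npair
  rw [← Finset.prod_pow_eq_pow_sum, ← Finset.prod_mul_distrib]
  refine Finset.prod_congr rfl fun i _ => ?_
  rw [norm_prod, ← Finset.prod_pow, ← Finset.prod_const, ← Finset.prod_mul_distrib]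
  refine Finset.prod_congr rfl fun j _ => ?_
  have h2 : (TT e e' (v j)).2 * (TT e e' (v i)).1 - (TT e e' (v i)).2 * (TT e e' (v j)).1 =
      (e.1 * e'.2 - e.2 * e'.1) * ((v i).1 * (v j).2 - (v j).1 * (v i).2) * (-1) ∨
      (TT e e' (v j)).2 * (TT e e' (v i)).1 - (TT e e' (v i)).2 * (TT e e' (v j)).1 =
      (e.1 * e'.2 - e.2 * e'.1) * ((v i).1 * (v j).2 - (v j).1 * (v i).2) := by
    simp only [TT_apply]
    right
    ring
  have h3 : ‖e.1 * e'.2 - e.2 * e'.1‖ ^ 2 = 1 - r ^ 2 := by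
    rw [normSq_delta, hc]
    unfold Unit2 at he he'
    rw [he, he']
    simp
  rcases h2 with h2 | h2 <;> rw [h2] <;> simp only [norm_mul, norm_neg, norm_one, mul_one,
    mul_pow, h3]

theorem two_point_real (n : ℕ) (h : ℝ) (hh : 0 ≤ h) (r : ℝ) (hr : 0 ≤ r) (hr1 : r < 1)
    (e e' : ℂ × ℂ) (he : Unit2 e) (he' : Unit2 e')
    (hc : e.1 * conj e'.1 + e.2 * conj e'.2 = (r : ℂ)) :
    ∫⁻ v, ENNReal.ofReal ((∏ k, (‖(v k).2 * e.1 - (v k).1 * e.2‖ ^ (2 * h) *
        ‖(v k).2 * e'.1 - (v k).1 * e'.2‖ ^ (2 * h))) * vand v) ∂(ens n) =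
      ENNReal.ofReal ((n.factorial : ℝ) *
        (∏ i : Fin n, (Real.Gamma ((n : ℝ) - i + h) * Real.Gamma ((i : ℝ) + h + 1))) *
        (1 - r ^ 2) ^ ((n : ℝ) * (n + 1) / 2 + 2 * n * h) * (Nmat n h r).det) := by
  have hr2 : r ^ 2 < 1 := by nlinarith
  have hκ : 0 < 1 - r ^ 2 := by linarith
  set κ := 1 - r ^ 2 with hκd
  set F : (Fin n → ℂ × ℂ) → ℝ := fun v => (∏ k, (‖(v k).2 * e.1 - (v k).1 * e.2‖ ^ (2 * h) *
        ‖(v k).2 * e'.1 - (v k).1 * e'.2‖ ^ (2 * h))) * vand v with hF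
  have hF0 : ∀ v, 0 ≤ F v := by
    intro v
    simp only [hF, vand]
    positivity
  -- Andréief
  have hA := andreief (cg.prod cg) (fun (i : Fin n) v => ((wt h (TT e e' v) : ℝ) : ℂ) *
    ph n i (TT e e' v)) (fun (j : Fin n) v => conj (ph n j (TT e e' v)))
    (fun i j => (integrable_Ff n h r hh hr hr1 e e' he he' hc i j).1)
  have hP : ∀ v : Fin n → ℂ × ℂ,
      (Matrix.of fun (i : Fin n) k => ((wt h (TT e e' (v k)) : ℝ) : ℂ) *
        ph n i (TT e e' (v k))).det *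
      (Matrix.of fun (i : Fin n) k => conj (ph n i (TT e e' (v k)))).det =
      ((κ ^ npair n * F v : ℝ) : ℂ) := by
    intro v
    have h1 := Matrix.det_mul_row (fun k => ((wt h (TT e e' (v k)) : ℝ) : ℂ))
      (Matrix.of fun (i : Fin n) k => ph n i (TT e e' (v k)))
    simp only [Matrix.of_apply] at h1
    rw [h1]
    have h2 : (Matrix.of fun (i : Fin n) k => conj (ph n i (TT e e' (v k)))) =
        (starRingEnd ℂ).mapMatrix (Matrix.of fun (i : Fin n) k => ph n i (TT e e' (v k))) := by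
      ext i k
      simp
    rw [h2, ← RingHom.map_det, mul_assoc, Complex.mul_conj, Complex.normSq_eq_norm_sq,
      norm_det_sq n e e' r he he' hc v, ← Complex.ofReal_prod, ← Complex.ofReal_mul]
    congr 1
    simp only [hF, wt, TT_apply]
    ring
  have hint : Integrable (fun v => ((κ ^ npair n * F v : ℝ) : ℂ)) (ens n) := by
    have := hA.1
    simp_rw [hP] at this
    exact this
  have hintR : Integrable (fun v => κ ^ npair n * F v) (ens n) := by
    refine hint.re.congr (Filter.Eventually.of_forall fun v => ?_)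
    exact Complex.ofReal_re _
  have hκp : (0 : ℝ) < κ ^ npair n := by positivity
  have hFint : Integrable F (ens n) := by
    have := hintR.const_mul (κ ^ npair n)⁻¹
    refine this.congr (Filter.Eventually.of_forall fun v => ?_)
    simp only
    rw [← mul_assoc, inv_mul_cancel₀ hκp.ne', one_mul]
  have hdet : (Matrix.of fun (i j : Fin n) => ∫ v, (((wt h (TT e e' v) : ℝ) : ℂ) *
      ph n i (TT e e' v)) * conj (ph n j (TT e e' v)) ∂(cg.prod cg)) =
      (Complex.ofRealHom).mapMatrix (Matrix.of fun (i j : Fin n) =>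
        (κ ^ ((n : ℝ) + 2 * h) * (Real.Gamma ((n : ℝ) - i + h) *
          Real.Gamma ((i : ℝ) + h + 1))) * Nmat n h r i j) := by
    ext i j
    have := (integrable_Ff n h r hh hr hr1 e e' he he' hc i j).2
    simp only [Ff] at this
    rw [Matrix.of_apply, this]
    simp only [RingHom.mapMatrix_apply, Matrix.map_apply, Matrix.of_apply, Complex.ofRealHom_eq_coe]
    congr 1
    ring
  have hval : κ ^ npair n * ∫ v, F v ∂(ens n) = (n.factorial : ℝ) *
      ((∏ i : Fin n, (κ ^ ((n : ℝ) + 2 * h) * (Real.Gamma ((n : ℝ) - i + h) *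
          Real.Gamma ((i : ℝ) + h + 1)))) * (Nmat n h r).det) := by
    have h1 := hA.2
    simp_rw [hP] at h1
    rw [integral_complex_ofReal, hdet, ← RingHom.map_det, integral_const_mul] at h1
    rw [Matrix.det_mul_column (fun i : Fin n => κ ^ ((n : ℝ) + 2 * h) *
      (Real.Gamma ((n : ℝ) - i + h) * Real.Gamma ((i : ℝ) + h + 1))) (Nmat n h r)] at h1
    have h2 : ((κ ^ npair n * ∫ v, F v ∂(ens n) : ℝ) : ℂ) =
      (((n.factorial : ℝ) *
      ((∏ i : Fin n, (κ ^ ((n : ℝ) + 2 * h) * (Real.Gamma ((n : ℝ) - i + h) *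
          Real.Gamma ((i : ℝ) + h + 1)))) * (Nmat n h r).det) : ℝ) : ℂ) := by
      rw [Complex.ofReal_mul (n.factorial : ℝ), Complex.ofReal_natCast]
      exact h1
    exact_mod_cast h2
  rw [← ofReal_integral_eq_lintegral_ofReal hFint (Filter.Eventually.of_forall hF0)]
  congr 1
  have h3 : ∫ v, F v ∂(ens n) = (κ ^ npair n)⁻¹ * ((n.factorial : ℝ) *
      ((∏ i : Fin n, (κ ^ ((n : ℝ) + 2 * h) * (Real.Gamma ((n : ℝ) - i + h) *
          Real.Gamma ((i : ℝ) + h + 1)))) * (Nmat n h r).det)) := by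
    rw [← hval, ← mul_assoc, inv_mul_cancel₀ hκp.ne', one_mul]
  rw [h3, Finset.prod_mul_distrib, Finset.prod_const, Finset.card_univ, Fintype.card_fin]
  have h4 : (κ ^ npair n)⁻¹ * (κ ^ ((n : ℝ) + 2 * h)) ^ n =
      κ ^ ((n : ℝ) * (n + 1) / 2 + 2 * n * h) := by
    rw [← Real.rpow_natCast κ (npair n), ← Real.rpow_neg hκ.le, ← Real.rpow_natCast,
      ← Real.rpow_mul hκ.le, ← Real.rpow_add hκ, npair_eq]
    congr 1
    ring
  rw [← h4]
  ring

/-- B3 (two point integral) -/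
theorem two_point_integral (n : ℕ) (h : ℝ) (hh : 0 ≤ h) (e e' : ℂ × ℂ) (he : Unit2 e)
    (he' : Unit2 e') (hne : ip2 e e' < 1) :
    ∫⁻ v, ENNReal.ofReal ((∏ k, (‖(v k).2 * e.1 - (v k).1 * e.2‖ ^ (2 * h) *
        ‖(v k).2 * e'.1 - (v k).1 * e'.2‖ ^ (2 * h))) * vand v) ∂(ens n) =
      ENNReal.ofReal ((n.factorial : ℝ) *
        (∏ i : Fin n, (Real.Gamma ((n : ℝ) - i + h) * Real.Gamma ((i : ℝ) + h + 1))) *
        (1 - ip2 e e') ^ ((n : ℝ) * (n + 1) / 2 + 2 * n * h) *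
        (Nmat n h (Real.sqrt (ip2 e e'))).det) := by
  set c : ℂ := e.1 * conj e'.1 + e.2 * conj e'.2 with hc
  have hip : ip2 e e' = ‖c‖ ^ 2 := rfl
  obtain ⟨ω, hω, hωc⟩ : ∃ ω : ℂ, ‖ω‖ = 1 ∧ conj ω * c = (‖c‖ : ℂ) := by
    by_cases h0 : c = 0
    · exact ⟨1, by simp, by simp [h0]⟩
    · refine ⟨c / (‖c‖ : ℂ), ?_, ?_⟩
      · rw [norm_div, Complex.norm_real, norm_norm, div_self (norm_ne_zero_iff.2 h0)]
      · have h1 : ((‖c‖ : ℝ) : ℂ) ≠ 0 := by exact_mod_cast norm_ne_zero_iff.2 h0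
        rw [map_div₀, Complex.conj_ofReal, div_mul_eq_mul_div, mul_comm (conj c) c,
          Complex.mul_conj, Complex.normSq_eq_norm_sq]
        field_simp
        push_cast
        ring
  set e'' : ℂ × ℂ := (ω * e'.1, ω * e'.2) with he''
  have hu : Unit2 e'' := by
    unfold Unit2 at he' ⊢
    simp only [he'', norm_mul, hω, one_mul]
    exact he'
  have hcc : e.1 * conj e''.1 + e.2 * conj e''.2 = ((‖c‖ : ℝ) : ℂ) := by
    rw [← hωc, hc]
    simp only [he'', map_mul]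
    ring
  have hr1 : ‖c‖ < 1 := by
    rw [hip] at hne
    by_contra hcon
    push Not at hcon
    nlinarith
  have main := two_point_real n h hh ‖c‖ (norm_nonneg _) hr1 e e'' he hu hcc
  rw [hip, Real.sqrt_sq (norm_nonneg _), ← main]
  refine lintegral_congr fun v => ?_
  congr 2
  refine Finset.prod_congr rfl fun k _ => ?_
  congr 2
  simp only [he'']
  have : (v k).2 * (ω * e'.1) - (v k).1 * (ω * e'.2) =
      ω * ((v k).2 * e'.1 - (v k).1 * e'.2) := by ring
  rw [this, norm_mul, hω, one_mul]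

end Pool.Agent.helper50.SG
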